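import Pool.Agent.H520Z.Sel.Defs3
import Pool.Agent.H511Z.Poincare

set_option autoImplicit false

namespace Pool.Agent.H520Z.Sel

open MeasureTheory Set Filter Topology

namespace H360

variable {k c2 c1 : ℝ} {sg : ℂ} {Ψ2 Ψ1 : ℝ → ℂ}

theorem mrep_zero : MRep k c2 c1 sg Ψ2 Ψ1 0 (fun _ => 0) := by
  refine ⟨fun _ => 0, fun y _ => hasDerivAt_const y 0, continuousOn_const,
      differentiable_const _, ⟨0, by simp⟩, by simp, fun u => ?_, fun u => ?_⟩ <;>
    simp [HasMellin, MellinConvergent, mellin]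

theorem mrep_add {x y : ℝ → ℝ} {G H : ℂ → ℂ} (hx : MRep k c2 c1 sg Ψ2 Ψ1 x G)
    (hy : MRep k c2 c1 sg Ψ2 Ψ1 y H) : MRep k c2 c1 sg Ψ2 Ψ1 (x + y) (G + H) := by
  obtain ⟨x', a1, a2, a3, ⟨B, a4⟩, a5, a7, a8⟩ := hx
  obtain ⟨y', b1, b2, b3, ⟨B', b4⟩, b5, b7, b8⟩ := hy
  refine ⟨fun t => x' t + y' t, fun t ht => (a1 t ht).add (b1 t ht),
      a2.add b2, a3.add b3, ⟨B + B', fun w h1 h2 =>
        (norm_add_le _ _).trans (add_le_add (a4 w h1 h2) (b4 w h1 h2))⟩, fun w => ?_,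
      fun u => ?_, fun u => ?_⟩
  · simp only [Pi.add_apply, a5, b5, map_add]; ring
  · have := hasMellin_add (a7 u).1 (b7 u).1
    rw [(a7 u).2, (b7 u).2, ← mul_add] at this
    convert this using 2 with t
    · simp
    · rfl
  · have := hasMellin_add (a8 u).1 (b8 u).1
    rw [(a8 u).2, (b8 u).2, ← mul_add] at this
    convert this using 2 with t
    · push_cast; ring
    · rfl

theorem mrep_smul (r : ℝ) {x : ℝ → ℝ} {G : ℂ → ℂ} (hx : MRep k c2 c1 sg Ψ2 Ψ1 x G) :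
    MRep k c2 c1 sg Ψ2 Ψ1 (r • x) (r • G) := by
  obtain ⟨x', a1, a2, a3, ⟨B, a4⟩, a5, a7, a8⟩ := hx
  have e : r • G = fun w => (r : ℂ) * G w := by
    funext w; simp
  rw [e]
  refine ⟨fun t => r * x' t, fun t ht => (a1 t ht).const_mul r,
      continuousOn_const.mul a2, a3.const_mul _, ⟨|r| * B, fun w h1 h2 => ?_⟩, fun w => ?_,
      fun u => ?_, fun u => ?_⟩
  · rw [norm_mul, Complex.norm_real, Real.norm_eq_abs]
    exact mul_le_mul_of_nonneg_left (a4 w h1 h2) (abs_nonneg _)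
  · simp only [a5, map_mul, Complex.conj_ofReal]; ring
  · have := hasMellin_const_smul (a7 u).1 (r : ℂ)
    rw [(a7 u).2] at this
    convert this using 1
    · funext t; simp
    · simp only [smul_eq_mul]; ring
  · have := hasMellin_const_smul (a8 u).1 (r : ℂ)
    rw [(a8 u).2] at this
    convert this using 1
    · funext t; simp only [smul_eq_mul]; push_cast; ring
    · simp only [smul_eq_mul]; ring

theorem mrep_unique (hΨ : ∀ u, Ψ2 u ≠ 0) {x : ℝ → ℝ} {G H : ℂ → ℂ}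
    (hx : MRep k c2 c1 sg Ψ2 Ψ1 x G) (hy : MRep k c2 c1 sg Ψ2 Ψ1 x H) : G = H := by
  obtain ⟨-, -, -, a3, -, -, a7, -⟩ := hx
  obtain ⟨-, -, -, b3, -, -, b7, -⟩ := hy
  have hline : ∀ u : ℝ, G ((c2 : ℂ) + u * Complex.I) = H ((c2 : ℂ) + u * Complex.I) := fun u =>
    mul_left_cancel₀ (hΨ u) ((a7 u).2.symm.trans (b7 u).2)
  refine AnalyticOnNhd.eq_of_frequently_eq (z₀ := (c2 : ℂ))
    (a3.differentiableOn.analyticOnNhd isOpen_univ)
    (b3.differentiableOn.analyticOnNhd isOpen_univ) ?_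
  have ht : Tendsto (fun u : ℝ => (c2 : ℂ) + u * Complex.I) (𝓝[≠] 0) (𝓝[≠] (c2 : ℂ)) := by
    refine tendsto_nhdsWithin_iff.mpr ⟨?_, ?_⟩
    · have : Continuous (fun u : ℝ => (c2 : ℂ) + u * Complex.I) := by fun_prop
      have h1 := this.tendsto 0
      simp only [Complex.ofReal_zero, zero_mul, add_zero] at h1
      exact h1.mono_left nhdsWithin_le_nhds
    · filter_upwards [self_mem_nhdsWithin] with u hu
      simpa using hu
  exact ht.frequently (Frequently.of_forall hline)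

theorem mrep_span {S : Set (ℝ → ℝ)} (hS : ∀ h ∈ S, ∃ G, MRep k c2 c1 sg Ψ2 Ψ1 h G)
    (h : ℝ → ℝ) (hh : h ∈ Submodule.span ℝ S) : ∃ G, MRep k c2 c1 sg Ψ2 Ψ1 h G := by
  induction hh using Submodule.span_induction with
  | mem x hx => exact hS x hx
  | zero => exact ⟨_, mrep_zero⟩
  | add x y _ _ hx hy =>
    obtain ⟨G, hG⟩ := hx
    obtain ⟨H, hH⟩ := hy
    exact ⟨_, mrep_add hG hH⟩
  | smul r x _ hx =>
    obtain ⟨G, hG⟩ := hx
    exact ⟨_, mrep_smul r hG⟩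

end H360

open H511 H360 in
theorem poincare_gen (k c c1 A K : ℝ) (sg : ℂ) (hsg : ‖sg‖ = 1) (Ψ2 Ψ1 : ℝ → ℂ) (W : ℝ → ℝ)
    (S : Set (ℝ → ℝ)) (hc1 : k - (c - 1 / 2) ≤ c1) (hc2 : c1 ≤ c - 1 / 2)
    (hk : k - (c - 1 / 2) < c - 1 / 2) (hW : ∀ u v, W u ≤ W v * Real.exp (A * |u - v|))
    (h2 : ∀ u : ℝ, 1 ≤ W u * ‖Ψ2 u‖) (h1 : ∀ u : ℝ, W u * ‖Ψ1 u‖ ≤ K / (1 + u ^ 2))
    (hS : ∀ h ∈ S, ∃ G, MRep k (c - 1 / 2) c1 sg Ψ2 Ψ1 h G) :
    ∃ C0 C1 : ℝ, 0 ≤ C0 ∧ 0 ≤ C1 ∧ Poin (Submodule.span ℝ S) c c1 C0 ∧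
      ∃ 𝒢 : Submodule.span ℝ S →ₗ[ℝ] (ℂ → ℂ),
        (∀ (h : Submodule.span ℝ S) (G : ℂ → ℂ),
          MRep k (c - 1 / 2) c1 sg Ψ2 Ψ1 (h : ℝ → ℝ) G → 𝒢 h = G) ∧
        ∀ (h : Submodule.span ℝ S) (N : ℝ),
          (∀ y, 0 < y → (y ^ c + y ^ (c - 1)) * |(h : ℝ → ℝ) y| ≤ N) →
          ∀ w : ℂ, k - (c - 1 / 2) ≤ w.re → w.re ≤ c - 1 / 2 → ‖𝒢 h w‖ ≤ C1 * N * W w.im := by
  obtain ⟨C, hC, hPL⟩ := gauss_PL _ _ A hk
  set J : ℝ := ∫ y in Ioi (0 : ℝ), y ^ (-(1 / 2) : ℝ) / (y + 1) with hJ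
  have hJ0 : 0 ≤ J := setIntegral_nonneg measurableSet_Ioi fun y (hy : 0 < y) => by positivity
  have hW0 : ∀ u, 0 < W u := fun u => by
    by_contra hc
    have := mul_nonpos_of_nonpos_of_nonneg (not_lt.1 hc) (norm_nonneg (Ψ2 u))
    linarith [h2 u]
  have hΨ : ∀ u, Ψ2 u ≠ 0 := fun u e => by
    have := h2 u
    rw [e, norm_zero, mul_zero] at this
    linarith
  have hK : 0 ≤ K := by
    have := h1 0
    have h3 := mul_nonneg (hW0 0).le (norm_nonneg (Ψ1 0))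
    simpa using h3.trans this
  have hGb : ∀ (h : ℝ → ℝ) (G : ℂ → ℂ), MRep k (c - 1 / 2) c1 sg Ψ2 Ψ1 h G → ∀ N : ℝ,
      (∀ y, 0 < y → (y ^ c + y ^ (c - 1)) * |h y| ≤ N) →
      ∀ w : ℂ, k - (c - 1 / 2) ≤ w.re → w.re ≤ c - 1 / 2 → ‖G w‖ ≤ C * (N * J * W w.im) := by
    rintro h G ⟨h', a1, a2, a3, ⟨B, a4⟩, a5, a7, a8⟩ N hN
    have hN0 : 0 ≤ N := le_trans (by positivity) (hN 1 one_pos)
    have hb : ∀ u : ℝ, ‖G (((c - 1 / 2 : ℝ) : ℂ) + u * Complex.I)‖ ≤ N * J * W u := by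
      intro u
      have e1 := mellin_bound c N u h hN
      rw [(a7 u).2, norm_mul] at e1
      have e2 := mul_le_mul_of_nonneg_right (h2 u)
        (norm_nonneg (G (((c - 1 / 2 : ℝ) : ℂ) + u * Complex.I)))
      have e3 := mul_le_mul_of_nonneg_left e1 (hW0 u).le
      nlinarith
    exact hPL G (fun u => N * J * W u) a3 ⟨|B|, 0, fun w h3 h4 => by
        have := Real.one_le_exp (show 0 ≤ |B| * (1 + |w.im|) ^ (0 : ℝ) by positivity)
        nlinarith [a4 w h3 h4, le_abs_self B, abs_nonneg B]⟩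
      (fun u v => by
        have := mul_le_mul_of_nonneg_left (hW u v) (mul_nonneg hN0 hJ0)
        linarith)
      (fun w hw => by
        rcases hw with hw | hw
        · have e : w = k - starRingEnd ℂ (((c - 1 / 2 : ℝ) : ℂ) + w.im * Complex.I) := by
            apply Complex.ext <;> simp [hw]
          have h5 := a5 (((c - 1 / 2 : ℝ) : ℂ) + w.im * Complex.I)
          rw [← e] at h5
          rw [h5, norm_mul, hsg, one_mul, Complex.norm_conj]
          exact hb w.im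
        · have e : w = ((c - 1 / 2 : ℝ) : ℂ) + w.im * Complex.I := by
            apply Complex.ext <;> simp [hw]
          have := hb w.im
          rw [← e] at this
          exact this)
  choose 𝒢 h𝒢 using fun h : Submodule.span ℝ S => mrep_span hS h.1 h.2
  refine ⟨C * J * K / 2, C * J, by positivity, by positivity, fun h hh => ?_,
    { toFun := 𝒢
      map_add' := fun x y => mrep_unique hΨ (h𝒢 (x + y)) (mrep_add (h𝒢 x) (h𝒢 y))
      map_smul' := fun r x => mrep_unique hΨ (h𝒢 (r • x)) (mrep_smul r (h𝒢 x)) },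
    fun h G hG => mrep_unique hΨ (h𝒢 h) hG, fun h N hN w h3 h4 => ?_⟩
  swap
  · exact (hGb _ _ (h𝒢 h) N hN w h3 h4).trans (le_of_eq (by ring))
  obtain ⟨G, hMR⟩ := mrep_span hS h hh
  have hGb' := hGb h G hMR
  obtain ⟨h', a1, a2, a3, ⟨B, a4⟩, a5, a7, a8⟩ := hMR
  refine ⟨h', a1, a2, fun N hN y hy => ?_⟩
  have hN0 : 0 ≤ N := le_trans (by positivity) (hN 1 one_pos)
  have hG := hGb' N hN
  set f : ℝ → ℂ := fun y => ((y * h' y : ℝ) : ℂ) with hf
  have hf1 : MellinConvergent f c1 := by simpa using (a8 0).1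
  have hm : ∀ u : ℝ, ‖mellin f ((c1 : ℂ) + u * Complex.I)‖ ≤ C * N * J * K * (1 + u ^ 2)⁻¹ := by
    intro u
    rw [(a8 u).2, norm_mul]
    have e1 := hG ((c1 : ℂ) + u * Complex.I) (by simpa using hc1) (by simpa using hc2)
    simp only [Complex.add_im, Complex.ofReal_im, Complex.mul_im, Complex.ofReal_re, Complex.I_im,
      mul_one, Complex.I_re, mul_zero, add_zero, zero_add] at e1
    have e2 := mul_le_mul_of_nonneg_left e1 (norm_nonneg (Ψ1 u))
    have e3 := mul_le_mul_of_nonneg_left (h1 u) (show 0 ≤ C * N * J by positivity)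
    rw [div_eq_mul_inv] at e3
    nlinarith
  have hi : Integrable fun u : ℝ => C * N * J * K * (1 + u ^ 2)⁻¹ :=
    integrable_inv_one_add_sq.const_mul _
  have hv : Complex.VerticalIntegrable (mellin f) c1 :=
    Integrable.mono' hi (cont_line hf1).aestronglyMeasurable (Eventually.of_forall hm)
  have hcont : ContinuousAt f y := by
    have : ContinuousAt h' y := a2.continuousAt (Ioi_mem_nhds hy)
    exact Complex.continuous_ofReal.continuousAt.comp (continuousAt_id.mul this)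
  have hinv := mellinInv_mellin_eq c1 f hy hf1 hv hcont
  have hn : ‖∫ u : ℝ, (y : ℂ) ^ (-((c1 : ℂ) + u * Complex.I)) •
      mellin f ((c1 : ℂ) + u * Complex.I)‖ ≤ y ^ (-c1) * (C * N * J * K * Real.pi) := by
    rw [← integral_univ_inv_one_add_sq, ← integral_const_mul, ← integral_const_mul]
    refine norm_integral_le_of_norm_le (hi.const_mul _) (Eventually.of_forall fun u => ?_)
    rw [norm_smul, Complex.norm_cpow_eq_rpow_re_of_pos hy]
    have : (-((c1 : ℂ) + u * Complex.I)).re = -c1 := by simp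
    rw [this]
    exact mul_le_mul_of_nonneg_left (hm u) (by positivity)
  have hpi := Real.pi_pos
  have hfy : y * |h' y| ≤ y ^ (-c1) * (C * N * J * K / 2) := by
    have e1 : ‖f y‖ = y * |h' y| := by
      simp only [hf, Complex.norm_real, Real.norm_eq_abs, abs_mul, abs_of_pos hy]
    rw [← e1, ← hinv, mellinInv, norm_smul, Real.norm_of_nonneg (by positivity)]
    refine (mul_le_mul_of_nonneg_left hn (by positivity)).trans (le_of_eq ?_)
    field_simp
  have e2 : y ^ c1 * y ^ (-c1) = 1 := by rw [← Real.rpow_add hy]; simp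
  have e3 := mul_le_mul_of_nonneg_left hfy (show 0 ≤ y ^ c1 by positivity)
  rw [← mul_assoc (y ^ c1) (y ^ (-c1)), e2] at e3
  rw [Real.rpow_add_one hy.ne']
  nlinarith

end Pool.Agent.H520Z.Sel
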